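import Mathlib
import Pool.Agent.H88.Ap3
import Pool.Agent.H88.FpDefs
import Pool.Agent.H88.FpDefs4

open Pool.Agent.H88.Fp

theorem Pool.Agent.Results.MP_f25c59_an.Yes.result :
    ∃ (M : Type) (_ : MetricSpace M) (o : M), ∀ p : ℝ, 0 < p → p < 1 →
      (∃ (X : Type) (_ : AddCommGroup X) (_ : Module ℝ X) (ν : X → ℝ) (δ : M → X),
        IsFree ℝ p o ν δ) ∧
      ∀ (X : Type) [AddCommGroup X] [Module ℝ X] (ν : X → ℝ) (δ : M → X),
        IsFree ℝ p o ν δ → ¬AP ν := by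
  obtain ⟨E, _, _, _, _, K, hK, hE⟩ := H88.Ap.davie
  refine ⟨E, inferInstance, 0, fun p hp hp1 => ⟨H88.Ap.exists_free hp hp1.le 0,
    fun X _ _ ν δ h => ?_⟩⟩
  letI := nacg h.banach hp
  obtain ⟨β, b1, b2⟩ := h.lift E _ (H88.Ap.banach hp hp1.le E) id 1 rfl zero_le_one
    fun x y => by simp [dist_eq_norm]
  exact H88.Ap.not_ap hK hE hp h.banach (fun _ => rfl) β (by simpa using b2) δ
    (fun a b => by rw [← dist_eq_norm a b, ← h.iso]; rfl) b1
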